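import Pool.Agent.Y546.WQ.Stm5
import Pool.Agent.Y67.WQ.COP

/-!
# The norm of `z ^ 2 - ζ y ^ 2` is prime to two (S_COP4), project TJ of helper546

Copy-edit of `Pool/Agent/Y67/WQ/COP.lean` of helper67.
-/

set_option autoImplicit false

namespace Pool.Agent.Y872.WQ

open NumberField IsDedekindDomain Polynomial Pool.Agent.Y546.WQ Pool.Agent.Y67.WQ

/-- **TJ-COP4.** -/
theorem mainCOP4 : S_COP4 := by
  classical
  intro p _ hp5 E _ _ c K N _ _ _ _ i _ x y z hxyz f hf P hP hP2 w hw hwP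
  haveI := hP
  have hpp : p.Prime := Fact.out
  set j : 𝓞 E →+* 𝓞 N := RingOfIntegers.mapRingHom i with hj
  have hjinj : Function.Injective j := by
    intro a b hab
    have h1 : ((j a : 𝓞 N) : N) = j b := congrArg _ hab
    rw [hj, RingOfIntegers.mapRingHom_apply, RingOfIntegers.mapRingHom_apply] at h1
    exact RingOfIntegers.ext (i.injective h1)
  obtain ⟨Q, hQ, hQP⟩ := exists_over j hjinj P
  haveI := hQ
  have hmem : ∀ a : 𝓞 E, a ∈ P → j a ∈ Q := by
    intro a ha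
    rw [← hQP] at ha
    exact ha
  obtain ⟨u, hu, hup⟩ := exists_zint c
  have hzp : IsPrimitiveRoot (j u) p := hup.map_of_injective hjinj
  set v : 𝓞 N := j u with hv
  have h2Q : (2 : 𝓞 N) ∈ Q := by
    have := hmem 2 hP2
    rwa [map_ofNat] at this
  have hpQ : ((p : ℕ) : 𝓞 N) ∉ Q := by
    intro h5
    have h6 := int_notMem Q hQ 2 Nat.prime_two (by exact_mod_cast h2Q) (p : ℤ) (by
      intro h
      have h9 : 2 ∣ p := by exact_mod_cast h
      have h10 := (Nat.prime_dvd_prime_iff_eq Nat.prime_two hpp).1 h9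
      omega)
    exact h6 (by exact_mod_cast h5)
  -- the value
  have hw' : w = aeval u f := by
    apply RingOfIntegers.ext
    rw [hw, ← hu]
    exact (Polynomial.aeval_algebraMap_apply E u f)
  have hjw : j w = ∏ τ : K →+* N, (RingOfIntegers.mapRingHom τ (z ^ 2) +
      v * RingOfIntegers.mapRingHom τ (-y ^ 2)) := by
    have h1 : j w = (f.map (Int.castRingHom (𝓞 N))).eval v := by
      rw [hw', Polynomial.aeval_def, Polynomial.hom_eval₂, Polynomial.eval_map,
        RingHom.ext_int (j.comp (algebraMap ℤ (𝓞 E))) (Int.castRingHom (𝓞 N))]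
    rw [h1, hf, nrmP, Polynomial.eval_prod]
    refine Finset.prod_congr rfl fun τ _ => ?_
    rw [Polynomial.eval_add, Polynomial.eval_C, Polynomial.eval_mul, Polynomial.eval_X,
      Polynomial.eval_C]
  have hprod := hmem w hwP
  rw [hjw, hQ.prod_mem_iff] at hprod
  obtain ⟨τ, -, hτ⟩ := hprod
  set T : 𝓞 K →+* 𝓞 N := RingOfIntegers.mapRingHom τ with hT
  haveI hPτ : (Q.comap T).IsPrime := Ideal.comap_isPrime T Q
  have h2τ : (2 : 𝓞 K) ∈ Q.comap T := by
    rw [Ideal.mem_comap, map_ofNat]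
    exact h2Q
  obtain ⟨hz, hcase⟩ := hxyz (Q.comap T) hPτ h2τ
  have hzQ : T z ∉ Q := hz
  have hτ' : T z ^ 2 - v * T y ^ 2 ∈ Q := by
    have h1 : T z ^ 2 - v * T y ^ 2 = T (z ^ 2) + v * T (-y ^ 2) := by
      rw [map_neg, map_pow, map_pow]
      ring
    rw [h1]
    exact hτ
  rcases hcase with ⟨-, -, h⟩ | ⟨h, -⟩ | ⟨-, hy, h⟩
  · -- `z = y`
    have h1 : T z - T y ∈ Q := by
      rw [← map_sub]
      exact h
    have h2 : T z ^ 2 * (1 - v) ∈ Q := by
      have h3 : T z ^ 2 * (1 - v) = (T z ^ 2 - v * T y ^ 2) - v * (T z + T y) * (T z - T y) := by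
        ring
      rw [h3]
      exact Q.sub_mem hτ' (Q.mul_mem_left _ h1)
    rcases hQ.mem_or_mem h2 with h3 | h3
    · exact hzQ (hQ.mem_of_pow_mem 2 h3)
    · exact hpQ (p_mem_of_one_sub_mem v hzp Q h3)
  · -- `y` in the ideal
    have h1 : T y ∈ Q := h
    have h2 : T z ^ 2 ∈ Q := by
      have h3 : T z ^ 2 = (T z ^ 2 - v * T y ^ 2) + v * T y * T y := by ring
      rw [h3]
      exact Q.add_mem hτ' (Q.mul_mem_left _ h1)
    exact hzQ (hQ.mem_of_pow_mem 2 h2)
  · -- `z ^ 3 = y ^ 3`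
    have hyQ : T y ∉ Q := hy
    have h1 : T z ^ 2 + T z * T y + T y ^ 2 ∈ Q := by
      have h2 : T z ^ 2 + T z * T y + T y ^ 2 = T (z ^ 2 + z * y + y ^ 2) := by
        rw [map_add, map_add, map_mul, map_pow, map_pow]
      rw [h2]
      exact h
    have h2 : T y ^ 6 * (1 - v ^ 3) ∈ Q := by
      have h3 : T y ^ 6 * (1 - v ^ 3) =
          (T z ^ 4 + T z ^ 2 * (v * T y ^ 2) + (v * T y ^ 2) ^ 2) * (T z ^ 2 - v * T y ^ 2) -
          (T z ^ 3 + T y ^ 3) * (T z - T y) * (T z ^ 2 + T z * T y + T y ^ 2) := by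
        ring
      rw [h3]
      exact Q.sub_mem (Q.mul_mem_left _ hτ') (Q.mul_mem_left _ h1)
    rcases hQ.mem_or_mem h2 with h3 | h3
    · exact hyQ (hQ.mem_of_pow_mem 6 h3)
    · have h4 : IsPrimitiveRoot (v ^ 3) p := by
        apply hzp.pow_of_coprime 3
        rw [Nat.coprime_primes Nat.prime_three hpp]
        omega
      exact hpQ (p_mem_of_one_sub_mem (v ^ 3) h4 Q h3)

end Pool.Agent.Y872.WQ
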